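import Pool.Agent.Q33.Fam.Basic
import Pool.Agent.H434R2.ElevenA

set_option autoImplicit false

namespace Pool.Agent.Results.MP_550cbf_nt.Eleven

open Finset Pool.Agent.Q33.Fam Pool.Agent.H434R2.Eleven

/-- the Wilf-Zeilberger identity with the powers of two cleared -/
lemma closed (M : ℕ) : 2 * S 11 3 64 w2 (M + 1) = ((M + 1 : ℕ) : ℤ) * cb (M + 1) *
    (3 * ∑ j ∈ range (M + 1), ((2 * M + 1 + j).choose M : ℤ) * ((2 * j).choose j : ℤ) * 4 ^ (M - j)) := by
  have h := wz M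
  have h1 : ((S 11 3 64 w2 (M + 1) : ℤ) : ℚ) = 64 ^ M * ∑ k ∈ range (M + 1), (11 * (k : ℚ) + 3) * tt k := by
    unfold S
    push_cast
    rw [mul_sum]
    apply sum_congr rfl
    intro k hk
    rw [mem_range] at hk
    have e : M + 1 - 1 - k = M - k := by omega
    have e2 : (64 : ℚ) ^ M = 64 ^ (M - k) * 64 ^ k := by
      rw [← pow_add]; congr 1; omega
    unfold tt w2 cb
    rw [e2]
    push_cast
    field_simp
  have h2 : (64 : ℚ) ^ M * ∑ j ∈ range (M + 1), FF M j = ((M + 1 : ℕ) : ℚ) * ((2 * (M + 1)).choose (M + 1) : ℚ) *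
      (3 / 2 * ∑ j ∈ range (M + 1), ((2 * M + 1 + j).choose M : ℚ) * ((2 * j).choose j : ℚ) * 4 ^ (M - j)) := by
    rw [mul_sum, mul_sum, mul_sum]
    apply sum_congr rfl
    intro j hj
    rw [mem_range] at hj
    have e2 : (4 : ℚ) ^ (M - j) = 4 ^ M / 4 ^ j := by
      rw [eq_div_iff (by positivity), ← pow_add]; congr 1; omega
    have e3 : (64 : ℚ) ^ M = 16 ^ M * 4 ^ M := by rw [← mul_pow]; norm_num
    unfold FF
    rw [e2, e3]
    push_cast
    field_simp
    ring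
  have h3 : ((2 * S 11 3 64 w2 (M + 1) : ℤ) : ℚ) = ((((M + 1 : ℕ) : ℤ) * cb (M + 1) *
    (3 * ∑ j ∈ range (M + 1), ((2 * M + 1 + j).choose M : ℤ) * ((2 * j).choose j : ℤ) * 4 ^ (M - j)) : ℤ) : ℚ) := by
    rw [Int.cast_mul, h1, h, h2]
    unfold cb
    push_cast
    ring
  exact_mod_cast h3

lemma weak (n : ℕ) (hn : 1 ≤ n) : (n : ℤ) * cb n ∣ 2 * S 11 3 64 w2 n := by
  obtain ⟨M, rfl⟩ : ∃ M, n = M + 1 := ⟨n - 1, by omega⟩
  rw [closed]
  exact Dvd.intro _ rfl

/-- For every `n ≥ 2`, `n (2n+1) C(2n,n)` divides `∑_{k<n} (11k+3) C(2k,k)^2 C(3k,k) 64^(n-1-k)`. -/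
theorem result : ∀ n : ℕ, 2 ≤ n →
    n * (2 * n + 1) * (2 * n).choose n ∣
      ∑ k ∈ range n, (11 * k + 3) * (2 * k).choose k ^ 2 * (3 * k).choose k * 64 ^ (n - 1 - k) := by
  intro n hn
  have h1 : D n ∣ 2 * 64 * S 11 3 64 w2 n :=
    odd_part 11 3 64 w2 n (by omega) 2 (by norm_num) (weak n (by omega))
      (by
        have := weak (n + 1) (by omega)
        push_cast at this
        exact this) (w2_dvd n)
  have hV : ∃ V : ℕ → ℤ, ∀ n, 2 ≤ n → w2 n = 2 * 1 * (2 * n + 1) * cb n * V n := by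
    choose V hV using fun n : ℕ => fun h : 1 ≤ n => w2_V n h
    refine ⟨fun n => if h : 1 ≤ n then V n h else 0, ?_⟩
    intro n hn
    have h : 1 ≤ n := by omega
    simp only [h, dif_pos]
    exact hV n h
  obtain ⟨V, hV⟩ := hV
  obtain ⟨q, hq, h2⟩ := two_part 11 3 32 w2 1 V 2 (by norm_num) hV
    ⟨1, by norm_num, by
      have e : (2 : ℤ) * 32 = 64 := by norm_num
      rw [e]
      unfold D S w2 cb
      simp [sum_range_succ, Nat.choose]⟩ n hn
  rw [one_mul] at h2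
  have e : (2 : ℤ) * 32 = 64 := by norm_num
  rw [e] at h2
  have h3 : D n ∣ S 11 3 64 w2 n := by
    apply combine (u := 2 ^ 7) (v := q) (coprime_two_pow q hq 7) _ h2
    have : (2 : ℤ) ^ 7 = 2 * 64 := by norm_num
    rw [this]
    exact h1
  have h4 : (((n * (2 * n + 1) * (2 * n).choose n : ℕ)) : ℤ) ∣
      ((∑ k ∈ range n, (11 * k + 3) * (2 * k).choose k ^ 2 * (3 * k).choose k * 64 ^ (n - 1 - k) : ℕ) : ℤ) := by
    convert h3 using 1
    · unfold D cb; push_cast; ring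
    · unfold S w2 cb
      push_cast
      apply sum_congr rfl
      intro k _
      ring
  exact_mod_cast h4

end Pool.Agent.Results.MP_550cbf_nt.Eleven
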